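import Pool.Agent.P.MP_0b0f5a_al.Final

/-!
The exact class of the Følner function of `G ω` for the two-symbol sequences `ω` with lacunary
runs.
-/

namespace Pool.Agent.Results.MP_0b0f5a_al.ExactClass

open Pool.Agent.P.MP_0b0f5a_al

theorem result (ω : ℕ → Fin 3) (z : Fin 3) (hz : ∀ i, ω i ≠ z) (K : ℕ → ℕ) (h0 : 1 ≤ K 0)
    (hK : ∀ j, 4 * K j ≤ K (j + 1))
    (hrun : ∀ j i, K j ≤ i → i + 1 < K (j + 1) → ω i = ω (K j))
    (hch : ∀ j, ω (K (j + 1) - 1) ≠ ω (K j)) :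
    ∃ F : ℕ → ℕ,
      (∀ j n, 2 ^ (K (j + 1) - K j / 2) ≤ n → n < 2 ^ (K (j + 2) - K (j + 1) / 2) →
        F n = 2 ^ (n * 2 ^ (K (j + 1) / 2))) ∧ Equivalent (folner ω) F := by
  rw [← folner_perm (Equiv.swap z 2) ω]
  refine Sparse.main ⟨fun i h => hz i ?_, h0, hK, fun j i h1 h2 => by rw [hrun j i h1 h2],
    fun j h => hch j ((Equiv.swap z 2).injective h)⟩
  exact (Equiv.swap z 2).injective (h.trans (Equiv.swap_apply_left z 2).symm)

end Pool.Agent.Results.MP_0b0f5a_al.ExactClass
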